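import Pool.Agent.Helper49_Pauli.Interface3

/-!
# Module H1: the Dirac energy of the trial state
-/

set_option linter.unusedSectionVars false

open MeasureTheory Complex ProbabilityTheory

namespace Pool.Agent.Helper49_Pauli

namespace H1

/-! ### bookkeeping for upper bounds of `∫⁻ ofReal f` -/

section LB

variable {Ω : Type*} [MeasurableSpace Ω] {γ : Measure Ω}

/-- `f` is measurable and `∫⁻ ofReal f ≤ ofReal b` with `b ≥ 0` -/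
def LB (γ : Measure Ω) (f : Ω → ℝ) (b : ℝ) : Prop :=
  Measurable f ∧ 0 ≤ b ∧ ∫⁻ z, ENNReal.ofReal (f z) ∂γ ≤ ENNReal.ofReal b

theorem LB.add {f g : Ω → ℝ} {a b : ℝ} (hf : LB γ f a) (hg : LB γ g b) :
    LB γ (fun z => f z + g z) (a + b) := by
  refine ⟨hf.1.add hg.1, add_nonneg hf.2.1 hg.2.1, ?_⟩
  calc ∫⁻ z, ENNReal.ofReal (f z + g z) ∂γ
      ≤ ∫⁻ z, (ENNReal.ofReal (f z) + ENNReal.ofReal (g z)) ∂γ :=
        lintegral_mono fun z => ENNReal.ofReal_add_le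
    _ = ∫⁻ z, ENNReal.ofReal (f z) ∂γ + ∫⁻ z, ENNReal.ofReal (g z) ∂γ :=
        lintegral_add_left hf.1.ennreal_ofReal _
    _ ≤ ENNReal.ofReal a + ENNReal.ofReal b := add_le_add hf.2.2 hg.2.2
    _ = ENNReal.ofReal (a + b) := (ENNReal.ofReal_add hf.2.1 hg.2.1).symm

theorem LB.mul {f : Ω → ℝ} {b : ℝ} (hf : LB γ f b) {c : ℝ} (hc : 0 ≤ c) :
    LB γ (fun z => c * f z) (c * b) := by
  refine ⟨hf.1.const_mul c, mul_nonneg hc hf.2.1, ?_⟩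
  have e : ∀ z, ENNReal.ofReal (c * f z) = ENNReal.ofReal c * ENNReal.ofReal (f z) :=
    fun z => ENNReal.ofReal_mul hc
  simp only [e]
  rw [lintegral_const_mul _ hf.1.ennreal_ofReal, ENNReal.ofReal_mul hc]
  gcongr
  exact hf.2.2

theorem LB.const [IsProbabilityMeasure γ] {c : ℝ} (hc : 0 ≤ c) : LB γ (fun _ => c) c := by
  refine ⟨measurable_const, hc, ?_⟩
  rw [lintegral_const, measure_univ, mul_one]

theorem LB.congr {f g : Ω → ℝ} {a b : ℝ} (hf : LB γ f a) (h : ∀ z, g z = f z) (hab : a = b) :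
    LB γ g b := by
  have : g = f := funext h
  rw [this, ← hab]
  exact hf

end LB

variable {ι : Type} [Fintype ι] (p : Par ι)

theorem w_ge (x : X3) : 1 ≤ p.w x := by
  unfold Par.w
  have h1 : 0 ≤ sq x := Finset.sum_nonneg fun _ _ => sq_nonneg _
  have h2 : 0 ≤ sq x / p.R ^ 2 := by positivity
  linarith

theorem p0_nonneg (x : X3) : 0 ≤ p.p0 x := nsq_nonneg _
theorem p1_nonneg (x : X3) : 0 ≤ p.p1 x := Finset.sum_nonneg fun _ _ => nsq_nonneg _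
theorem p2_nonneg (x : X3) : 0 ≤ p.p2 x :=
  Finset.sum_nonneg fun _ _ => Finset.sum_nonneg fun _ _ => nsq_nonneg _
theorem pd_nonneg (x : X3) : 0 ≤ p.pd x := nsq_nonneg _
theorem E_nonneg (x : X3) : 0 ≤ sq (p.E x) := Finset.sum_nonneg fun _ _ => sq_nonneg _

/-- the bound for the Gaussian average at a fixed position -/
noncomputable def BB (C : ℝ) (x : X3) : ℝ :=
  20000 * (p.pd x + p.a * p.p0 x * (C * p.κ0⁻¹ * p.t ^ (-(3 / 2) : ℝ) * p.w x ^ 2) +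
    p.a * p.p1 x * (C * p.κ0⁻¹ * p.t ^ (-(1 / 2) : ℝ) * p.w x ^ 2) +
    p.a * p.p2 x * (C * p.κ⁻¹ * p.t ^ ((1 / 2) : ℝ) * p.w x ^ 2) +
    p.a ^ 2 * p.p0 x * (C * p.κ⁻¹ ^ 2 * p.τ ^ (-2 : ℝ) * p.w x ^ 4) +
    p.a ^ 2 * p.p1 x * (C * p.κ⁻¹ ^ 2 * (p.τ ^ (-(3 / 2) : ℝ) * p.t ^ ((1 / 2) : ℝ)) *
      p.w x ^ 4) +
    sq (p.E x) * (p.p0 x + p.a * p.p0 x * (C * p.κ⁻¹ * p.τ ^ (-(1 / 2) : ℝ) * p.w x ^ 2) +
      p.a * p.p1 x * (C * p.κ⁻¹ * p.t ^ ((1 / 2) : ℝ) * p.w x ^ 2)))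

theorem cont_T (T : EuclideanSpace ℝ ι →ₗ[ℝ] EuclideanSpace ℝ ι) :
    Continuous fun z : EuclideanSpace ℝ ι => (fun i => T z i : ι → ℝ) := by
  have h1 : Continuous T := T.continuous_of_finiteDimensional
  exact continuous_pi fun i => (EuclideanSpace.proj (𝕜 := ℝ) i).continuous.comp h1

theorem meas_slice {F : (ι → ℝ) → X3 → ℝ} (hF : Continuous fun z : (ι → ℝ) × X3 => F z.1 z.2)
    (T : EuclideanSpace ℝ ι →ₗ[ℝ] EuclideanSpace ℝ ι) (x : X3) :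
    Measurable fun z : EuclideanSpace ℝ ι => F (fun i => T z i) x := by
  have h : Continuous fun z : EuclideanSpace ℝ ι => ((fun i => T z i : ι → ℝ), x) :=
    (cont_T T).prodMk continuous_const
  exact (hF.comp h).measurable

/-- the Gaussian average at a fixed position -/
theorem bound_x (hC : ContStatement) {C : ℝ} (hC0 : 0 < C)
    (hM : ∀ (ι : Type) [Fintype ι] (p : Par ι)
    (T : EuclideanSpace ℝ ι →ₗ[ℝ] EuclideanSpace ℝ ι),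
    (∀ z, ‖T z‖ ^ 2 + quad p.K (fun i => T z i) = ‖z‖ ^ 2) → ∀ x : X3,
    (∫⁻ z, ENNReal.ofReal (p.fsAl (fun i => T z i) x) ∂stdGaussian (EuclideanSpace ℝ ι) ≤
      ENNReal.ofReal (C * p.κ0⁻¹ * p.t ^ (-(3 / 2) : ℝ) * p.w x ^ 2)) ∧
    (∫⁻ z, ENNReal.ofReal (p.fsBl (fun i => T z i) x) ∂stdGaussian (EuclideanSpace ℝ ι) ≤
      ENNReal.ofReal (C * p.κ0⁻¹ * p.t ^ (-(1 / 2) : ℝ) * p.w x ^ 2)) ∧
    (∫⁻ z, ENNReal.ofReal (p.fsB (fun i => T z i) x) ∂stdGaussian (EuclideanSpace ℝ ι) ≤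
      ENNReal.ofReal (C * p.κ⁻¹ * p.τ ^ (-(1 / 2) : ℝ) * p.w x ^ 2)) ∧
    (∫⁻ z, ENNReal.ofReal (p.fsD (fun i => T z i) x) ∂stdGaussian (EuclideanSpace ℝ ι) ≤
      ENNReal.ofReal (C * p.κ⁻¹ * p.t ^ ((1 / 2) : ℝ) * p.w x ^ 2)) ∧
    (∫⁻ z, ENNReal.ofReal (p.fsA (fun i => T z i) x * p.fsB (fun i => T z i) x)
        ∂stdGaussian (EuclideanSpace ℝ ι) ≤
      ENNReal.ofReal (C * p.κ⁻¹ ^ 2 * p.τ ^ (-2 : ℝ) * p.w x ^ 4)) ∧
    (∫⁻ z, ENNReal.ofReal (p.fsA (fun i => T z i) x * p.fsD (fun i => T z i) x)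
        ∂stdGaussian (EuclideanSpace ℝ ι) ≤
      ENNReal.ofReal (C * p.κ⁻¹ ^ 2 * (p.τ ^ (-(3 / 2) : ℝ) * p.t ^ ((1 / 2) : ℝ)) *
        p.w x ^ 4)))
    (T : EuclideanSpace ℝ ι →ₗ[ℝ] EuclideanSpace ℝ ι)
    (hT : ∀ z, ‖T z‖ ^ 2 + quad p.K (fun i => T z i) = ‖z‖ ^ 2) (x : X3) :
    LB (stdGaussian (EuclideanSpace ℝ ι)) (fun z => p.bd (fun i => T z i) x) (BB p C x) := by
  obtain ⟨-, -, c3, c4, c5, c6, c7, -⟩ := hC ι p
  obtain ⟨m1, m2, m3, m4, m5, m6⟩ := hM ι p T hT x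
  have ht : 0 < p.t := p.hτ.trans_le p.hτt
  have hτ := p.hτ
  have hκ := p.hκ
  have hκ0 := p.hκ0
  have ha := p.ha
  have q1 : LB (stdGaussian (EuclideanSpace ℝ ι)) (fun z => p.fsAl (fun i => T z i) x)
      (C * p.κ0⁻¹ * p.t ^ (-(3 / 2) : ℝ) * p.w x ^ 2) := ⟨meas_slice c6 T x, by positivity, m1⟩
  have q2 : LB (stdGaussian (EuclideanSpace ℝ ι)) (fun z => p.fsBl (fun i => T z i) x)
      (C * p.κ0⁻¹ * p.t ^ (-(1 / 2) : ℝ) * p.w x ^ 2) := ⟨meas_slice c5 T x, by positivity, m2⟩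
  have q3 : LB (stdGaussian (EuclideanSpace ℝ ι)) (fun z => p.fsB (fun i => T z i) x)
      (C * p.κ⁻¹ * p.τ ^ (-(1 / 2) : ℝ) * p.w x ^ 2) := ⟨meas_slice c3 T x, by positivity, m3⟩
  have q4 : LB (stdGaussian (EuclideanSpace ℝ ι)) (fun z => p.fsD (fun i => T z i) x)
      (C * p.κ⁻¹ * p.t ^ ((1 / 2) : ℝ) * p.w x ^ 2) := ⟨meas_slice c4 T x, by positivity, m4⟩
  have q5 : LB (stdGaussian (EuclideanSpace ℝ ι))
      (fun z => p.fsA (fun i => T z i) x * p.fsB (fun i => T z i) x)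
      (C * p.κ⁻¹ ^ 2 * p.τ ^ (-2 : ℝ) * p.w x ^ 4) :=
    ⟨(meas_slice c7 T x).mul (meas_slice c3 T x), by positivity, m5⟩
  have q6 : LB (stdGaussian (EuclideanSpace ℝ ι))
      (fun z => p.fsA (fun i => T z i) x * p.fsD (fun i => T z i) x)
      (C * p.κ⁻¹ ^ 2 * (p.τ ^ (-(3 / 2) : ℝ) * p.t ^ ((1 / 2) : ℝ)) * p.w x ^ 4) :=
    ⟨(meas_slice c7 T x).mul (meas_slice c4 T x), by positivity, m6⟩
  have h0 := p0_nonneg p x
  have h1 := p1_nonneg p x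
  have h2 := p2_nonneg p x
  have hd := pd_nonneg p x
  have hE := E_nonneg p x
  have r := ((((((LB.const (γ := stdGaussian (EuclideanSpace ℝ ι)) hd).add
    (q1.mul (mul_nonneg ha h0))).add (q2.mul (mul_nonneg ha h1))).add
    (q4.mul (mul_nonneg ha h2))).add (q5.mul (mul_nonneg (pow_nonneg ha 2) h0))).add
    (q6.mul (mul_nonneg (pow_nonneg ha 2) h1))).add
    ((((LB.const (γ := stdGaussian (EuclideanSpace ℝ ι)) h0).add
      (q3.mul (mul_nonneg ha h0))).add (q4.mul (mul_nonneg ha h1))).mul hE)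
  refine (r.mul (c := 20000) (by norm_num)).congr (fun z => ?_) rfl
  unfold Par.bd
  ring

/-- comparison of two powers of the weight -/
theorem w2_le_w4 (x : X3) : p.w x ^ 2 ≤ p.w x ^ 4 :=
  pow_le_pow_right₀ (w_ge p x) (by norm_num)

/-- the integrated majorant of `BB` -/
noncomputable def DD (C : ℝ) (x : X3) : ℝ :=
  20000 * (p.w x ^ 2 * p.pd x +
    (p.a * (C * p.κ0⁻¹ * p.t ^ (-(3 / 2) : ℝ))) * (p.w x ^ 4 * p.p0 x) +
    (p.a * (C * p.κ0⁻¹ * p.t ^ (-(1 / 2) : ℝ))) * (p.w x ^ 4 * p.p1 x) +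
    (p.a * (C * p.κ⁻¹ * p.t ^ ((1 / 2) : ℝ))) * (p.w x ^ 4 * p.p2 x) +
    (p.a ^ 2 * (C * p.κ⁻¹ ^ 2 * p.τ ^ (-2 : ℝ))) * (p.w x ^ 4 * p.p0 x) +
    (p.a ^ 2 * (C * p.κ⁻¹ ^ 2 * (p.τ ^ (-(3 / 2) : ℝ) * p.t ^ ((1 / 2) : ℝ)))) *
      (p.w x ^ 4 * p.p1 x) +
    (1 + C) * (sq (p.E x) * (p.p0 x + p.bB * p.w x ^ 2 * p.p0 x + p.bD * p.w x ^ 2 * p.p1 x)))

theorem BB_le_DD {C : ℝ} (hC0 : 0 < C) (x : X3) : BB p C x ≤ DD p C x := by
  have ht : 0 < p.t := p.hτ.trans_le p.hτt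
  have hτ := p.hτ
  have hκ := p.hκ
  have hκ0 := p.hκ0
  have ha := p.ha
  have h0 := p0_nonneg p x
  have h1 := p1_nonneg p x
  have h2 := p2_nonneg p x
  have hd := pd_nonneg p x
  have hE := E_nonneg p x
  have hw := w_ge p x
  have hw0 : 0 < p.w x := by linarith
  have hw2 : 1 ≤ p.w x ^ 2 := one_le_pow₀ hw
  have hw4 := w2_le_w4 p x
  have e1 : p.pd x ≤ p.w x ^ 2 * p.pd x := by nlinarith
  have e2 : p.a * p.p0 x * (C * p.κ0⁻¹ * p.t ^ (-(3 / 2) : ℝ) * p.w x ^ 2) ≤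
      (p.a * (C * p.κ0⁻¹ * p.t ^ (-(3 / 2) : ℝ))) * (p.w x ^ 4 * p.p0 x) := by
    calc _ = (p.a * (C * p.κ0⁻¹ * p.t ^ (-(3 / 2) : ℝ))) * (p.w x ^ 2 * p.p0 x) := by ring
      _ ≤ _ := by gcongr
  have e3 : p.a * p.p1 x * (C * p.κ0⁻¹ * p.t ^ (-(1 / 2) : ℝ) * p.w x ^ 2) ≤
      (p.a * (C * p.κ0⁻¹ * p.t ^ (-(1 / 2) : ℝ))) * (p.w x ^ 4 * p.p1 x) := by
    calc _ = (p.a * (C * p.κ0⁻¹ * p.t ^ (-(1 / 2) : ℝ))) * (p.w x ^ 2 * p.p1 x) := by ring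
      _ ≤ _ := by gcongr
  have e4 : p.a * p.p2 x * (C * p.κ⁻¹ * p.t ^ ((1 / 2) : ℝ) * p.w x ^ 2) ≤
      (p.a * (C * p.κ⁻¹ * p.t ^ ((1 / 2) : ℝ))) * (p.w x ^ 4 * p.p2 x) := by
    calc _ = (p.a * (C * p.κ⁻¹ * p.t ^ ((1 / 2) : ℝ))) * (p.w x ^ 2 * p.p2 x) := by ring
      _ ≤ _ := by gcongr
  have e7 : sq (p.E x) * (p.p0 x + p.a * p.p0 x * (C * p.κ⁻¹ * p.τ ^ (-(1 / 2) : ℝ) *
      p.w x ^ 2) + p.a * p.p1 x * (C * p.κ⁻¹ * p.t ^ ((1 / 2) : ℝ) * p.w x ^ 2)) ≤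
      (1 + C) * (sq (p.E x) * (p.p0 x + p.bB * p.w x ^ 2 * p.p0 x +
        p.bD * p.w x ^ 2 * p.p1 x)) := by
    have f1 : 0 ≤ p.bB * p.w x ^ 2 * p.p0 x := by unfold Par.bB; positivity
    have f2 : 0 ≤ p.bD * p.w x ^ 2 * p.p1 x := by unfold Par.bD; positivity
    have f3 : p.a * p.p0 x * (C * p.κ⁻¹ * p.τ ^ (-(1 / 2) : ℝ) * p.w x ^ 2) =
        C * (p.bB * p.w x ^ 2 * p.p0 x) := by unfold Par.bB; ring
    have f4 : p.a * p.p1 x * (C * p.κ⁻¹ * p.t ^ ((1 / 2) : ℝ) * p.w x ^ 2) =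
        C * (p.bD * p.w x ^ 2 * p.p1 x) := by unfold Par.bD; ring
    rw [f3, f4]
    calc _ ≤ sq (p.E x) * ((1 + C) * (p.p0 x + p.bB * p.w x ^ 2 * p.p0 x +
          p.bD * p.w x ^ 2 * p.p1 x)) := by
          refine mul_le_mul_of_nonneg_left ?_ hE
          have g1 : 0 ≤ C * p.p0 x := by positivity
          nlinarith
      _ = _ := by ring
  unfold BB DD
  have e5 : p.a ^ 2 * p.p0 x * (C * p.κ⁻¹ ^ 2 * p.τ ^ (-2 : ℝ) * p.w x ^ 4) =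
      (p.a ^ 2 * (C * p.κ⁻¹ ^ 2 * p.τ ^ (-2 : ℝ))) * (p.w x ^ 4 * p.p0 x) := by ring
  have e6 : p.a ^ 2 * p.p1 x * (C * p.κ⁻¹ ^ 2 * (p.τ ^ (-(3 / 2) : ℝ) *
      p.t ^ ((1 / 2) : ℝ)) * p.w x ^ 4) =
      (p.a ^ 2 * (C * p.κ⁻¹ ^ 2 * (p.τ ^ (-(3 / 2) : ℝ) * p.t ^ ((1 / 2) : ℝ)))) *
      (p.w x ^ 4 * p.p1 x) := by ring
  linarith

/-- `LB` from an integral bound -/
theorem LB.of_integral {f : X3 → ℝ} {b : ℝ} (hc : Continuous f) (hs : HasCompactSupport f)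
    (h0 : ∀ x, 0 ≤ f x) (hb : ∫ x, f x ≤ b) : LB (volume : Measure X3) f b := by
  have hi : Integrable f := hc.integrable_of_hasCompactSupport hs
  have hn : 0 ≤ ∫ x, f x := integral_nonneg h0
  refine ⟨hc.measurable, hn.trans hb, ?_⟩
  rw [← ofReal_integral_eq_lintegral_ofReal hi (Filter.Eventually.of_forall h0)]
  exact ENNReal.ofReal_le_ofReal hb

theorem int_DD (hCt : ContStatement) {C C0 e e' : ℝ} (hC0 : 0 < C) (hg : p.Good C0 e)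
    (he' : ∫ x, sq (p.E x) * (p.p0 x + p.bB * p.w x ^ 2 * p.p0 x +
      p.bD * p.w x ^ 2 * p.p1 x) ≤ e') :
    LB (volume : Measure X3) (DD p C) (20000 * (e +
      (p.a * (C * p.κ0⁻¹ * p.t ^ (-(3 / 2) : ℝ))) * C0 +
      (p.a * (C * p.κ0⁻¹ * p.t ^ (-(1 / 2) : ℝ))) * (C0 * p.R ^ (-2 : ℤ)) +
      (p.a * (C * p.κ⁻¹ * p.t ^ ((1 / 2) : ℝ))) * (C0 * p.R ^ (-4 : ℤ)) +
      (p.a ^ 2 * (C * p.κ⁻¹ ^ 2 * p.τ ^ (-2 : ℝ))) * C0 +
      (p.a ^ 2 * (C * p.κ⁻¹ ^ 2 * (p.τ ^ (-(3 / 2) : ℝ) * p.t ^ ((1 / 2) : ℝ)))) *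
        (C0 * p.R ^ (-2 : ℤ)) + (1 + C) * e')) := by
  obtain ⟨-, -, -, -, -, -, -, cw, cp0, cp1, cp2, cpd, cE, s0, s1, s2, sd, -⟩ := hCt ι p
  obtain ⟨g0, g1, g2, gd⟩ := hg
  have ht : 0 < p.t := p.hτ.trans_le p.hτt
  have hτ := p.hτ
  have hκ := p.hκ
  have hκ0 := p.hκ0
  have ha := p.ha
  have h0 := p0_nonneg p
  have h1 := p1_nonneg p
  have h2 := p2_nonneg p
  have hd := pd_nonneg p
  have hE := E_nonneg p
  have hw : ∀ x, 0 ≤ p.w x := fun x => by linarith [w_ge p x]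
  have q0 : LB (volume : Measure X3) (fun x => p.w x ^ 4 * p.p0 x) C0 :=
    LB.of_integral ((cw.pow 4).mul cp0) s0.mul_left
      (fun x => mul_nonneg (pow_nonneg (hw x) 4) (h0 x)) g0
  have q1 : LB (volume : Measure X3) (fun x => p.w x ^ 4 * p.p1 x) (C0 * p.R ^ (-2 : ℤ)) :=
    LB.of_integral ((cw.pow 4).mul cp1) s1.mul_left
      (fun x => mul_nonneg (pow_nonneg (hw x) 4) (h1 x)) g1
  have q2 : LB (volume : Measure X3) (fun x => p.w x ^ 4 * p.p2 x) (C0 * p.R ^ (-4 : ℤ)) :=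
    LB.of_integral ((cw.pow 4).mul cp2) s2.mul_left
      (fun x => mul_nonneg (pow_nonneg (hw x) 4) (h2 x)) g2
  have qd : LB (volume : Measure X3) (fun x => p.w x ^ 2 * p.pd x) e :=
    LB.of_integral ((cw.pow 2).mul cpd) sd.mul_left
      (fun x => mul_nonneg (pow_nonneg (hw x) 2) (hd x)) gd
  have qe : LB (volume : Measure X3) (fun x => sq (p.E x) * (p.p0 x +
      p.bB * p.w x ^ 2 * p.p0 x + p.bD * p.w x ^ 2 * p.p1 x)) e' := by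
    refine LB.of_integral ?_ ?_ ?_ he'
    · exact cE.mul ((cp0.add ((continuous_const.mul (cw.pow 2)).mul cp0)).add
        ((continuous_const.mul (cw.pow 2)).mul cp1))
    · exact HasCompactSupport.mul_left ((s0.add s0.mul_left).add s1.mul_left)
    · intro x
      refine mul_nonneg (hE x) ?_
      have f0 := h0 x
      have f1 := h1 x
      have f1 : 0 ≤ p.bB * p.w x ^ 2 * p.p0 x := by unfold Par.bB; positivity
      have f2 : 0 ≤ p.bD * p.w x ^ 2 * p.p1 x := by unfold Par.bD; positivity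
      linarith
  exact (((((((qd.add (q0.mul (by positivity))).add (q1.mul (by positivity))).add
    (q2.mul (by positivity))).add (q0.mul (by positivity))).add (q1.mul (by positivity))).add
    (qe.mul (by positivity))).mul (by norm_num))

theorem cont_shift (hCt : ContStatement) :
    Continuous fun z : (ι → ℝ) × X3 => p.bd (fun i => z.1 i - p.η i) z.2 := by
  have h : Continuous fun z : (ι → ℝ) × X3 => ((fun i => z.1 i - p.η i : ι → ℝ), z.2) := by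
    fun_prop
  have h2 := Continuous.comp (g := fun z : (ι → ℝ) × X3 => p.bd z.1 z.2) (hCt ι p).1 h
  exact h2

end H1

open H1 in
theorem h1 (hMom : MomStatement) (hTr : TrialStatement) (hCt : ContStatement) : H1Statement := by
  obtain ⟨C, hC0, hM⟩ := hMom
  refine ⟨20000 * (1 + C), by positivity, ?_⟩
  intro ι _ _ p T Z C0 e e' hChg hG hC0' he'
  obtain ⟨hZ, hT, hchg⟩ := hChg
  have cbd := (hCt ι p).1
  -- the function `G`
  set G : (ι → ℝ) → ENNReal := fun v => ∫⁻ x : X3, ENNReal.ofReal (p.bd (fun i => v i - p.η i) x)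
    with hGdef
  have hcont : Continuous fun z : (ι → ℝ) × X3 => p.bd (fun i => z.1 i - p.η i) z.2 := by
    exact cont_shift p hCt
  have hGm : Measurable G :=
    Measurable.lintegral_prod_right' (f := fun z : (ι → ℝ) × X3 =>
      ENNReal.ofReal (p.bd (fun i => z.1 i - p.η i) z.2)) hcont.measurable.ennreal_ofReal
  have step1 : ∫⁻ y, ∫⁻ x, ENNReal.ofReal (squeezed p.K p.η (fun i => y i) ^ 2 *
        nsq (dop (vp p.a p.k p.c p.θ (fun i => y i)) (wf p.u0 p.u (fun i => y i)) x))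
        ∂volume ∂stdGaussian (EuclideanSpace ℝ ι) ≤
      ∫⁻ y, ENNReal.ofReal (squeezed p.K p.η (fun i => y i) ^ 2) * G (fun i => y i)
        ∂stdGaussian (EuclideanSpace ℝ ι) := by
    refine lintegral_mono fun y => ?_
    have hm : Measurable fun x : X3 => ENNReal.ofReal (p.bd (fun i => y i - p.η i) x) := by
      have h : Continuous fun x : X3 => ((fun i => y i : ι → ℝ), x) := by fun_prop
      exact (hcont.comp h).measurable.ennreal_ofReal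
    change _ ≤ ENNReal.ofReal (squeezed p.K p.η (fun i => y i) ^ 2) *
      ∫⁻ x : X3, ENNReal.ofReal (p.bd (fun i => y i - p.η i) x)
    rw [← lintegral_const_mul _ hm]
    refine lintegral_mono fun x => ?_
    change ENNReal.ofReal _ ≤ ENNReal.ofReal _ * ENNReal.ofReal _
    rw [← ENNReal.ofReal_mul (sq_nonneg _)]
    refine ENNReal.ofReal_le_ofReal (mul_le_mul_of_nonneg_left ?_ (sq_nonneg _))
    exact (hTr ι p).2.2.2.2.2.1 (fun i => y i) x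
  refine step1.trans ?_
  rw [hchg G hGm]
  have step2 : ∫⁻ z, G (fun i => p.η i + T z i) ∂stdGaussian (EuclideanSpace ℝ ι) =
      ∫⁻ x : X3, ∫⁻ z, ENNReal.ofReal (p.bd (fun i => T z i) x)
        ∂stdGaussian (EuclideanSpace ℝ ι) := by
    have e1 : ∀ z : EuclideanSpace ℝ ι, G (fun i => p.η i + T z i) =
        ∫⁻ x : X3, ENNReal.ofReal (p.bd (fun i => T z i) x) := by
      intro z
      rw [hGdef]
      simp only [add_sub_cancel_left]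
    simp only [e1]
    rw [lintegral_lintegral_swap]
    have h : Continuous fun z : EuclideanSpace ℝ ι × X3 => ((fun i => T z.1 i : ι → ℝ), z.2) :=
      ((cont_T T).comp continuous_fst).prodMk continuous_snd
    exact (cbd.comp h).measurable.ennreal_ofReal.aemeasurable
  rw [step2]
  have step3 : ∫⁻ x : X3, ∫⁻ z, ENNReal.ofReal (p.bd (fun i => T z i) x)
        ∂stdGaussian (EuclideanSpace ℝ ι) ≤ ∫⁻ x : X3, ENNReal.ofReal (DD p C x) := by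
    refine lintegral_mono fun x => ?_
    have hM' := bound_x p hCt hC0 (fun ι _ p T hT x => by
      obtain ⟨m1, m2, m3, m4, m5, m6, -⟩ := hM ι p T hT x
      exact ⟨m1, m2, m3, m4, m5, m6⟩) T hT x
    exact hM'.2.2.trans (ENNReal.ofReal_le_ofReal (BB_le_DD p hC0 x))
  have step4 := (int_DD p hCt hC0 hG he').2.2
  have he0 : 0 ≤ e := (integral_nonneg fun x =>
    mul_nonneg (pow_nonneg (by linarith [w_ge p x]) 2) (pd_nonneg p x)).trans hG.2.2.2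
  have step5 : ENNReal.ofReal Z * ∫⁻ x : X3, ∫⁻ z, ENNReal.ofReal (p.bd (fun i => T z i) x)
        ∂stdGaussian (EuclideanSpace ℝ ι) ≤ ENNReal.ofReal Z * _ :=
    mul_le_mul_right (step3.trans step4) (ENNReal.ofReal Z)
  refine step5.trans ?_
  rw [← ENNReal.ofReal_mul hZ.le]
  refine ENNReal.ofReal_le_ofReal (mul_le_mul_of_nonneg_left ?_ hZ.le)
  have ht : 0 < p.t := p.hτ.trans_le p.hτt
  have hτ := p.hτ
  have hκ := p.hκ
  have hκ0 := p.hκ0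
  have ha := p.ha
  have hR := p.hR
  have s1 : 0 ≤ C0 * (p.a * p.κ0⁻¹ * p.t ^ (-(3 / 2) : ℝ) +
    p.a * p.κ0⁻¹ * p.t ^ (-(1 / 2) : ℝ) * p.R ^ (-2 : ℤ) +
    p.a * p.κ⁻¹ * p.t ^ ((1 / 2) : ℝ) * p.R ^ (-4 : ℤ) +
    p.a ^ 2 * p.κ⁻¹ ^ 2 * p.τ ^ (-2 : ℝ) +
    p.a ^ 2 * p.κ⁻¹ ^ 2 * (p.τ ^ (-(3 / 2) : ℝ) * p.t ^ ((1 / 2) : ℝ)) *
      p.R ^ (-2 : ℤ)) := by positivity
  have s2 : 0 ≤ C * e := by positivity
  nlinarith

end Pool.Agent.Helper49_Pauli
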